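import Mathlib
import Pool.Agent.U529.FD.Main2

/-!
# Primes and almost primes `m² + l²`, `m ≤ N`, for all but `N ^ μ` of the `l ≤ N`

For `m`, `l` coprime `m² + l²` is the numerator of the value of `x² + 1` at `x = m / l`. Let `0 < μ < 1`. For all but at
most `N ^ μ` of the denominators `l ≤ N`

* the number of the `m ≤ N` for which `m² + l²` is a prime is at most `4 / (1 + μ) + ε` times the number predicted by
  Hardy and Littlewood,
* the number of the `m ≤ N` for which `m² + l²` has no prime factor below `N ^ u`, `(1 + μ) / 4 ≤ u < (1 + μ) / 2`, is at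
  least `(2 / (1 + μ) log ((1 + μ) / u - 1) - ε) C_l N / log N`,
* if `μ > 1 / 3`, at least `c C_l N / log N` of the `m² + l²`, `m ≤ N`, have at most two prime factors.

Proof. The values `m² + l²`, `m ≤ N`, of a single `l` have level of distribution `N`. Outside an exceptional set of
`N ^ μ` of the `l` the level is `N ^ (1 + μ - ε)`: the exceptional `l` form a set `E`, and for every set `E ⊆ [1, N]`
`∑_{a} |∑_{l ∈ E} (#{|m| ≤ N : a ∣ l + i m} - 2 N κ_l(a) / N(a))| ≪ N ^ ε ((D N |E|) ^ (1/2) + |E| N ^ (1 - δ))`, the sum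
over the Gaussian integers `a = g a₀`, `a₀` primitive, with `g N(a₀) ≤ D`, by the large sieve for the roots of
`ν² ≡ -1` (`Pool.Agent.N7.GN`, starting files), applied to the indicator function of `E` (`Block.lean`, `Bound.lean`,
`TI.lean`). For squarefree `q` the condition `q ∣ m² + l²` is a combination of `3 ^ ω(q)` conditions `a ∣ l + i m` of this
kind (`Expand.lean`, `Rem.lean`, `Tot.lean`). Since the weights of the linear sieve in `Pool.Agent.Y882.JR.core5` (starting
files) do not depend on the densities, the sums of the weighted error terms over the `l` of a set can be bounded in this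
way (`Few.lean`, `Eng.lean`). The densities are compared with the constants `C_l` uniformly in `l` (`Loc.lean`,
`Loc2.lean`, `Main.lean`, `Main2.lean`).
-/

set_option autoImplicit false

namespace Pool.Agent.Results.MP_f1a94e_nt.FewDenominators

open Finset Filter Topology

/-- the number of the `m ≤ N` for which `m² + l²` is a prime -/
def primeValues (l N : ℕ) : ℕ := ((Icc 1 N).filter (fun m : ℕ => (m ^ 2 + l ^ 2).Prime)).card

open Classical in
/-- the number of the `m ≤ N` for which `m² + l²` has no prime factor below `z` -/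
noncomputable def roughValues (l N : ℕ) (z : ℝ) : ℕ :=
  ((Icc 1 N).filter (fun m : ℕ => ∀ p : ℕ, p.Prime → p ∣ m ^ 2 + l ^ 2 → z ≤ p)).card

/-- the number of the `m ≤ N` for which `m² + l²` has at most two prime factors, counted with multiplicity -/
def almostPrimeValues (l N : ℕ) : ℕ := ((Icc 1 N).filter (fun m : ℕ => (m ^ 2 + l ^ 2).primeFactorsList.length ≤ 2)).card

/-- the partial products of the constant of Hardy and Littlewood for `m² + l²` -/
noncomputable def partialProduct (l x : ℕ) : ℝ :=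
  ∏ p ∈ (Icc 3 x).filter (fun p : ℕ => p.Prime ∧ ¬ p ∣ l), (1 - ((ZMod.χ₄ (p : ZMod 4) : ℤ) : ℝ) / ((p : ℝ) - 1))

theorem pp_eq (l x : ℕ) : Pool.Agent.Y781.JR.RR ((l : ℤ) ^ 2) (x + 1) = partialProduct l x := by
  rw [Pool.Agent.U529.FD.RR_l]
  unfold partialProduct Pool.Agent.U529.FD.fc
  apply prod_congr _ (fun _ _ => rfl)
  ext p
  rw [mem_filter, mem_filter, mem_range, mem_Icc, Int.natCast_dvd_natCast]
  constructor
  · rintro ⟨h1, ⟨h2, h3⟩, h4⟩
    have := h2.two_le
    exact ⟨⟨by omega, by omega⟩, h2, h4⟩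
  · rintro ⟨⟨h1, h2⟩, h3, h4⟩
    exact ⟨by omega, ⟨h3, by omega⟩, h4⟩

theorem pow_le_prod (z : ℝ) (hz : 0 ≤ z) (L : List ℕ) (h : ∀ p ∈ L, z ≤ p) : z ^ L.length ≤ (L.prod : ℝ) := by
  induction L with
  | nil => simp
  | cons a L ih =>
    rw [List.length_cons, pow_succ, List.prod_cons, Nat.cast_mul, mul_comm]
    have h1 := h a (List.mem_cons_self)
    have h2 := ih (fun p hp => h p (List.mem_cons_of_mem _ hp))
    exact mul_le_mul h1 h2 (by positivity) (Nat.cast_nonneg _)

/-- values without small prime factors have at most two prime factors -/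
theorem rough_le_almost (l N : ℕ) (hl : 1 ≤ l) (hlN : l ≤ N) (z : ℝ) (hz : 1 ≤ z)
    (h : 2 * (N : ℝ) ^ 2 < z ^ 3) : roughValues l N z ≤ almostPrimeValues l N := by
  classical
  unfold roughValues almostPrimeValues
  apply card_le_card
  intro m hm
  rw [mem_filter, mem_Icc] at hm ⊢
  refine ⟨hm.1, ?_⟩
  by_contra hcon
  push Not at hcon
  have hpos : m ^ 2 + l ^ 2 ≠ 0 := by positivity
  have h1 := pow_le_prod z (by linarith) (m ^ 2 + l ^ 2).primeFactorsList (fun p hp =>
    hm.2 p (Nat.prime_of_mem_primeFactorsList hp) (Nat.dvd_of_mem_primeFactorsList hp))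
  rw [Nat.prod_primeFactorsList hpos] at h1
  have h2 : z ^ 3 ≤ z ^ (m ^ 2 + l ^ 2).primeFactorsList.length := pow_le_pow_right₀ hz hcon
  have h3 : (m : ℝ) ≤ N := by exact_mod_cast hm.1.2
  have h4 : (l : ℝ) ≤ N := by exact_mod_cast hlN
  have h5 : (m : ℝ) ^ 2 ≤ (N : ℝ) ^ 2 := pow_le_pow_left₀ (Nat.cast_nonneg _) h3 2
  have h6 : (l : ℝ) ^ 2 ≤ (N : ℝ) ^ 2 := pow_le_pow_left₀ (Nat.cast_nonneg _) h4 2
  push_cast at h1
  linarith

open Classical in
theorem result : ∃ C : ℕ → ℝ,
    -- the conjectured constants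
    (∀ l : ℕ, 1 ≤ l → 0 < C l ∧ Tendsto (partialProduct l) atTop (𝓝 (C l))) ∧
    ∀ μ ε : ℝ, 0 < μ → μ < 1 → 0 < ε →
      -- the upper bound for the primes
      (∀ᶠ N : ℕ in atTop, (((Icc 1 N).filter (fun l : ℕ =>
        (4 / (1 + μ) + ε) * (C l * N / (2 * Real.log N)) < (primeValues l N : ℝ))).card : ℝ) ≤ (N : ℝ) ^ μ) ∧
      -- the lower bound for the values without small prime factors
      (∀ u : ℝ, (1 + μ) / 4 ≤ u → u < (1 + μ) / 2 → ∀ᶠ N : ℕ in atTop, (((Icc 1 N).filter (fun l : ℕ =>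
        (roughValues l N ((N : ℝ) ^ u) : ℝ) <
          (2 / (1 + μ) * Real.log ((1 + μ) / u - 1) - ε) * (C l * N / Real.log N))).card : ℝ) ≤ (N : ℝ) ^ μ) ∧
      -- the values with at most two prime factors
      (1 / 3 < μ → ∃ c : ℝ, 0 < c ∧ ∀ᶠ N : ℕ in atTop, (((Icc 1 N).filter (fun l : ℕ =>
        (almostPrimeValues l N : ℝ) < c * (C l * N / Real.log N))).card : ℝ) ≤ (N : ℝ) ^ μ) := by
  obtain ⟨C, hC⟩ := Pool.Agent.U529.FD.const_ex
  refine ⟨C, ?_, ?_⟩
  · intro l hl
    refine ⟨(hC l hl).1, ?_⟩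
    exact ((hC l hl).2.comp (tendsto_add_atTop_nat 1)).congr (fun x => pp_eq l x)
  intro μ ε hμ0 hμ1 hε
  refine ⟨?_, ?_, ?_⟩
  · have H := Pool.Agent.U529.FD.upper C hC μ (ε / 2) hμ0 hμ1 (by linarith)
    filter_upwards [H] with N hN
    refine le_trans (le_of_eq ?_) hN
    congr 2
    apply filter_congr
    intro l _
    have h1 : (4 / (1 + μ) + ε) * (C l * N / (2 * Real.log N)) =
        (2 / (1 + μ) + ε / 2) * (C l * N / Real.log N) := by
      rcases eq_or_ne (Real.log N) 0 with h0 | h0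
      · rw [h0]; simp
      · field_simp
        ring
    rw [h1]
    rfl
  · intro u hu1 hu2
    exact Pool.Agent.U529.FD.lower C hC μ ε u hμ0 hμ1 hε hu1 hu2
  · intro hμ3
    set u : ℝ := (2 / 3 + (1 + μ) / 2) / 2 with hu
    have hu1 : 2 / 3 < u := by linarith
    have hu2 : u < (1 + μ) / 2 := by linarith
    have hu0 : 0 < u := by linarith
    have hlog : 0 < Real.log ((1 + μ) / u - 1) := by
      apply Real.log_pos
      rw [lt_sub_iff_add_lt, lt_div_iff₀ hu0]
      linarith
    set L : ℝ := 2 / (1 + μ) * Real.log ((1 + μ) / u - 1) with hL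
    have hL0 : 0 < L := by positivity
    refine ⟨L / 2, by linarith, ?_⟩
    have H := Pool.Agent.U529.FD.lower C hC μ (L / 2) u hμ0 hμ1 (by linarith) (by linarith) hu2
    have hXr : Tendsto (fun N : ℕ => (N : ℝ)) atTop atTop := tendsto_natCast_atTop_atTop
    have ev : ∀ᶠ N : ℕ in atTop, (3 : ℝ) ≤ (N : ℝ) ^ (3 * u - 2) :=
      ((tendsto_rpow_atTop (by linarith)).comp hXr).eventually_ge_atTop _
    filter_upwards [H, ev, eventually_ge_atTop 2] with N hN e1 e2
    have hNr : (2 : ℝ) ≤ N := by exact_mod_cast e2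
    have hN0 : (0 : ℝ) < N := by linarith
    have hz1 : 1 ≤ (N : ℝ) ^ u := Real.one_le_rpow (by linarith) hu0.le
    have hz3 : 2 * (N : ℝ) ^ 2 < ((N : ℝ) ^ u) ^ 3 := by
      have h1 : ((N : ℝ) ^ u) ^ 3 = (N : ℝ) ^ (3 * u - 2) * (N : ℝ) ^ 2 := by
        rw [← Real.rpow_natCast, ← Real.rpow_mul hN0.le, ← Real.rpow_natCast (N : ℝ) 2, ← Real.rpow_add hN0]
        congr 1
        push_cast
        ring
      rw [h1]
      have h2 : 0 < (N : ℝ) ^ 2 := by positivity
      nlinarith
    refine le_trans ?_ hN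
    apply Nat.cast_le.2
    apply card_le_card
    intro l hl
    rw [mem_filter, mem_Icc] at hl ⊢
    refine ⟨hl.1, ?_⟩
    have h3 := rough_le_almost l N hl.1.1 hl.1.2 ((N : ℝ) ^ u) hz1 hz3
    have h4 : (roughValues l N ((N : ℝ) ^ u) : ℝ) ≤ almostPrimeValues l N := by exact_mod_cast h3
    have h5 : L - L / 2 = L / 2 := by ring
    rw [h5]
    exact lt_of_le_of_lt h4 hl.2

end Pool.Agent.Results.MP_f1a94e_nt.FewDenominators
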