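import Mathlib
import Pool.Agent.U288.RO.O2

/-!
# Almost prime values of `x ^ 2 + 1` and of all quadratic polynomials: the images of sparse patterns under arbitrary
injective maps, in every short window

Let `F(x) = A x ^ 2 + B x + C`, with `B ^ 2 - 4 A C` not a square, and let `f ≠ 0` be a polynomial with integer
coefficients such that `F f` has no fixed prime divisor, for example `F(x) = x ^ 2 + 1` and `f = 1`, or `f(x) = x ^ 2 + 3`.
Fix `k` and `L`. For all large `X` and ANY `L` injective maps `φ_1, ..., φ_L` from `{0, ..., X}` to the integers, in ALL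
windows `(N, N + 2 N ^ (3/4)]` with `N` large a positive proportion of the vectors `0 < h_1 < ... < h_k ≤ X` for which all
`h_j` and all `h_j - h_i` are shifted primes has the property: for ALL `j ≤ L` and ALL nonempty `T ⊆ {h_1, ..., h_k}` there
are `m` such that the numbers `x = m + φ_j(t)`, `t ∈ T`, are in the window, every `F(x)` has at most THREE prime factors, all
of them at least `N ^ (73/400)`, and every `f(x)` is an almost prime; these `m` can be taken to form a progression of any
given length with difference at most a power of `log N`. The proportion does not depend on the maps, nor on `N`.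

Proof. By the theorem `Pool.Agent.R498.MT.quad_sys` of the starting files every set of `K₁` integers contains the pattern of
such a cluster of `k` elements (`Nx.base_F`). By Ramsey's theorem every set of `K` integers up to `X` contains `k + 1`
elements `s_0 < ... < s_k` such that all the images of all the nonempty parts of `{s_1 - s_0, ..., s_k - s_0}` are such
patterns (`Nx.hered`). A family of patterns which is met by every set of `K` integers contains a positive proportion of the
patterns made of shifted primes (`Pool.Agent.U288.SP.principle`: counts of the configurations of `K` points and of pairs of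
them, and the inequality of Cauchy and Schwarz).
-/

set_option autoImplicit false

namespace Pool.Agent.Results.MP_f1a94e_nt.ImagesInEveryWindow

open Filter Finset

open Classical in
/-- the vectors `0 = h 0 < h 1 < ... < h k ≤ X`; if `σ ≠ 0`, those with `h j - h i + σ` prime for all `0 ≤ i < j ≤ k` -/
noncomputable def patterns (k : ℕ) (σ : ℤ) (X : ℕ) : Finset (Fin (k + 1) → ℕ) :=
  (Fintype.piFinset (fun _ : Fin (k + 1) => range (X + 1))).filter (fun h => h 0 = 0 ∧ StrictMono h ∧
    ∀ i j, i < j → σ ≠ 0 → ((h j : ℤ) - h i + σ).toNat.Prime)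

/-- the number of the conditions -/
def edges (k : ℕ) (σ : ℤ) : ℕ := if σ = 0 then 0 else k * (k + 1) / 2

/-- `n ≠ 0` has at most `r` prime factors (with multiplicity), and all of them are `≥ w` -/
def AlmostPrime (r : ℕ) (w : ℝ) (n : ℤ) : Prop :=
  n ≠ 0 ∧ n.natAbs.primeFactorsList.length ≤ r ∧ ∀ q : ℕ, q.Prime → (q : ℤ) ∣ n → w ≤ q

/-- There is a progression of `l` terms `m' = m + i d`, `0 ≤ i < l`, with difference `1 ≤ d ≤ (log N) ^ b`, such that for
each of them all the numbers `x = m' + v`, `v ∈ T`, are in the window `(N, N + 2 N ^ (3/4)]`, `A x ^ 2 + B x + C` has at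
most three prime factors, all of them `≥ N ^ (73/400)`, and `f(x)` has at most `r` prime factors, all of them `≥ N ^ δ`. -/
def Occurs (A B C : ℤ) (f : Polynomial ℤ) (r : ℕ) (δ : ℝ) (l b N : ℕ) (T : Finset ℤ) : Prop :=
  ∃ (m : ℤ) (d : ℕ), 1 ≤ d ∧ (d : ℝ) ≤ Real.log N ^ b ∧ ∀ i < l, ∀ v ∈ T, (N : ℤ) < m + i * d + v ∧
    ((m + i * d + v : ℤ) : ℝ) ≤ N + 2 * (N : ℝ) ^ (3 / 4 : ℝ) ∧
    AlmostPrime 3 ((N : ℝ) ^ (73 / 400 : ℝ)) (A * (m + i * d + v) ^ 2 + B * (m + i * d + v) + C) ∧
    AlmostPrime r ((N : ℝ) ^ δ) (f.eval (m + i * d + v))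

/-- the set `{h 1, ..., h k}` -/
def points {k : ℕ} (h : Fin (k + 1) → ℕ) : Finset ℕ := (univ : Finset (Fin k)).image (fun a => h a.succ)

open Classical in
/-- the patterns such that `φ_j(T)` occurs for all `j` and all nonempty `T ⊆ {h 1, ..., h k}` -/
noncomputable def good {L : ℕ} (k : ℕ) (σ : ℤ) (A B C : ℤ) (f : Polynomial ℤ) (r : ℕ) (δ : ℝ) (l b N : ℕ)
    (φ : Fin L → ℕ → ℤ) (X : ℕ) : Finset (Fin (k + 1) → ℕ) :=
  (patterns k σ X).filter (fun h => ∀ j, ∀ T ⊆ points h, T.Nonempty → Occurs A B C f r δ l b N (T.image (φ j)))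

/-- **Almost prime values of quadratic polynomials, in every short window, at all the images of a positive proportion of
the patterns made of shifted primes.** The constants `c₁`, `c₂` and the bound for `X` do not depend on the maps `φ`; the
numbers `r` and `δ`, which concern the second polynomial `f` only, may depend on them. -/
theorem result (k L : ℕ) (A B C : ℤ) (hA : A ≠ 0) (hΔ : ¬ IsSquare (B ^ 2 - 4 * A * C)) (f : Polynomial ℤ) (hf : f ≠ 0)
    (hadm : ∀ p : ℕ, p.Prime → ∃ n : ℤ, ¬ (p : ℤ) ∣ (A * n ^ 2 + B * n + C) * f.eval n) (σ : ℤ)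
    (hσ : σ = 0 ∨ σ = 1 ∨ σ = -1) :
    ∃ c₁ c₂ : ℝ, 0 < c₁ ∧ ∃ X₀ : ℕ, ∀ X : ℕ, X₀ ≤ X →
      ((patterns k σ X).card : ℝ) ≤ c₂ * ((X : ℝ) ^ k / Real.log X ^ edges k σ) ∧
      ∀ φ : Fin L → ℕ → ℤ, (∀ j, Set.InjOn (φ j) (Set.Iic X)) → ∃ (r : ℕ) (δ : ℝ), 0 < δ ∧
        ∀ l : ℕ, ∃ b N₀ : ℕ, ∀ N : ℕ, N₀ ≤ N →
          c₁ * ((X : ℝ) ^ k / Real.log X ^ edges k σ) ≤ ((good k σ A B C f r δ l b N φ X).card : ℝ) := by
  classical
  obtain ⟨c₁, c₂, hc1, h⟩ := Pool.Agent.U288.RO.Nx.fin_quad2 k L A B C hA hΔ f hf hadm σ hσ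
  obtain ⟨X₀, h⟩ := eventually_atTop.1 h
  refine ⟨c₁, c₂, hc1, X₀, fun X hX => ?_⟩
  obtain ⟨h1, h2⟩ := h X hX
  have e : (Pool.Agent.U288.SP.shifts (fun _ _ : Fin (k + 1) => σ) X) = patterns k σ X := by
    unfold Pool.Agent.U288.SP.shifts patterns
    congr!
  rw [e] at h1 h2
  refine ⟨h1, fun φ hφ => ?_⟩
  obtain ⟨r, δ, hδ, h3⟩ := h2 φ hφ
  refine ⟨r, δ, hδ, fun l => ?_⟩
  obtain ⟨b, hb⟩ := h3 l
  obtain ⟨N₀, hb⟩ := eventually_atTop.1 hb
  refine ⟨b, N₀, fun N hN => (hb N hN).trans (le_of_eq ?_)⟩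
  unfold good
  congr!

end Pool.Agent.Results.MP_f1a94e_nt.ImagesInEveryWindow
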