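import Mathlib
import Pool.Agent.U288.SP.Cl2

/-!
# Almost primes `m ^ 2 + 1` whose arguments `m` have shifted primes as distances

Fix `k ≥ 1` and `σ = 1` or `σ = -1`, and consider the patterns `0 = h 0 < h 1 < ... < h k ≤ X` all of whose
`k (k + 1) / 2` distances are shifted primes: `h j - h i + σ` is a PRIME for all `i < j`. There are at most
`c' X ^ k / (log X) ^ (k (k + 1) / 2)` of them. The theorem: for all large `X`, at least
`c X ^ k / (log X) ^ (k (k + 1) / 2)` of them, `c > 0`, so a positive proportion, occur in EVERY window
`(N, N + 2 N ^ (3/4)]` with `N ≥ N₀(X)` as patterns of arguments of almost primes of the form `m ^ 2 + 1`: there is an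
`n` in the window such that all the numbers `(n + h i) ^ 2 + 1`, `0 ≤ i ≤ k`, have at most three prime factors, all of
them at least `N ^ (73/400)`. For `k = 1`: for a positive proportion of the numbers `h = p - 1`, `p ≤ X` prime (and of
the numbers `h = p + 1`) there are in all these windows numbers `m` such that `m ^ 2 + 1` and `(m + h) ^ 2 + 1` are
both products of at most three primes, all of them large.

More generally the theorem is proved
* for every polynomial `A x ^ 2 + B x + C` in place of `x ^ 2 + 1` which is irreducible (its discriminant is not a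
  square), and together with a further polynomial `f` (`f = 1` is allowed) whose values at the same arguments are almost
  prime with `r = r(X)` prime factors, if `(A x ^ 2 + B x + C) f(x)` has no fixed prime divisor (`f = x` makes the
  arguments almost prime as well);
* not only for one `n`, but for all the terms of an arithmetic progression of any given length `l` in the window with
  difference at most `(log N) ^ b`;
* also without conditions on the distances (`σ = 0`): a positive proportion of all vectors of shifts occurs in every
  window.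

What is new. The library (starting files, `R498.MT.quad_sys`) contains a theorem of Maynard-Tao type: every set `S` of
`K(k)` integers contains SOME `k + 1` elements which are the pattern of such a cluster. It gives nothing for a set of
patterns of density zero which, as the one considered here, does not contain all the patterns of `k + 1` elements of
one large set, and it does not count. Own mathematics (`Pool.Agent.U288.SP`): the lower bound of the right order for the
number of the sets of `D` integers up to `X` all of whose distances are shifted primes, the upper bound of the right order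
for the number of PAIRS of such sets which have `k + 1` given elements in common (Selberg sieve for systems of linear
forms, averaged), and the passage from clusters to patterns by the inequality of Cauchy and Schwarz, uniformly in `N`
(`Cl1.lean`, `Cl2.lean`).
-/

set_option autoImplicit false

namespace Pool.Agent.Results.MP_f1a94e_nt.ShiftedPrimePatterns

open Filter Finset

/-- `n ≠ 0` is up to the sign a product of at most `r` primes, counted with multiplicity, all of them at least
`w`. -/
def AlmostPrime (r : ℕ) (w : ℝ) (n : ℤ) : Prop :=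
  n ≠ 0 ∧ n.natAbs.primeFactorsList.length ≤ r ∧ ∀ q : ℕ, q.Prime → (q : ℤ) ∣ n → w ≤ q

open Classical in
/-- The patterns `0 = h 0 < h 1 < ... < h k ≤ X` with `h j - h i + σ` prime for all `i < j` (no condition if
`σ = 0`). -/
noncomputable def patterns (σ : ℤ) (k X : ℕ) : Finset (Fin (k + 1) → ℕ) :=
  (Fintype.piFinset (fun _ : Fin (k + 1) => range (X + 1))).filter (fun h => h 0 = 0 ∧ StrictMono h ∧
    ∀ i j, i < j → σ ≠ 0 → ((h j : ℤ) - h i + σ).toNat.Prime)

/-- The number of the conditions: `k (k + 1) / 2` if `σ ≠ 0`, and `0` if `σ = 0`. -/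
def conditions (σ : ℤ) (k : ℕ) : ℕ := if σ = 0 then 0 else k * (k + 1) / 2

/-- The pattern `h` occurs in the window `(N, N + 2 N ^ (3/4)]`: there is an arithmetic progression of `l` terms `x` in
the window with difference between `1` and `(log N) ^ b` such that for all its terms `x` and all `i`, with
`m = x + h i`: `A m ^ 2 + B m + C` has at most three prime factors, all of them at least `N ^ (73/400)`, and `f(m)` has
at most `r` prime factors, all of them at least `N ^ δ`. -/
def Occurs {k : ℕ} (A B C : ℤ) (f : Polynomial ℤ) (r : ℕ) (δ : ℝ) (l b N : ℕ) (h : Fin (k + 1) → ℕ) : Prop :=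
  ∃ n d : ℕ, 1 ≤ d ∧ (d : ℝ) ≤ Real.log N ^ b ∧ ∀ j < l, N < n + j * d ∧
    ((n + j * d : ℕ) : ℝ) ≤ N + 2 * (N : ℝ) ^ (3 / 4 : ℝ) ∧ ∀ i,
      AlmostPrime 3 ((N : ℝ) ^ (73 / 400 : ℝ))
        (A * ((n + j * d + h i : ℕ) : ℤ) ^ 2 + B * ((n + j * d + h i : ℕ) : ℤ) + C) ∧
      AlmostPrime r ((N : ℝ) ^ δ) (f.eval ((n + j * d + h i : ℕ) : ℤ))

open Classical in
/-- **A positive proportion of the patterns made of shifted primes occurs, in every window, among the arguments of the
almost primes `A m ^ 2 + B m + C`** (for example `m ^ 2 + 1`: `A = C = 1`, `B = 0`, `f = 1`). -/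
theorem result (A B C : ℤ) (hA : A ≠ 0) (hΔ : ¬ IsSquare (B ^ 2 - 4 * A * C)) (f : Polynomial ℤ) (hf : f ≠ 0)
    (hadm : ∀ p : ℕ, p.Prime → ∃ n : ℤ, ¬ (p : ℤ) ∣ (A * n ^ 2 + B * n + C) * f.eval n) (k : ℕ)
    (σ : ℤ) (hσ : σ = 0 ∨ σ = 1 ∨ σ = -1) :
    ∃ c c' : ℝ, 0 < c ∧ ∀ᶠ X : ℕ in atTop,
      ((patterns σ k X).card : ℝ) ≤ c' * ((X : ℝ) ^ k / Real.log X ^ conditions σ k) ∧
      ∃ (r : ℕ) (δ : ℝ), 0 < δ ∧ ∀ l : ℕ, ∃ b : ℕ, ∀ᶠ N : ℕ in atTop,
        c * ((X : ℝ) ^ k / Real.log X ^ conditions σ k) ≤
          (((patterns σ k X).filter (fun h => Occurs A B C f r δ l b N h)).card : ℝ) := by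
  obtain ⟨c, c', hc, h⟩ := Pool.Agent.U288.SP.quad_shifts A B C hA hΔ f hf hadm k σ hσ
  rw [Pool.Agent.U288.SP.edg_const] at h
  exact ⟨c, c', hc, h⟩

end Pool.Agent.Results.MP_f1a94e_nt.ShiftedPrimePatterns
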